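import Pool.Agent.H38.LR.S8.H442R2.BX.Defs
import Pool.Agent.H38.LR.S8.H442R2.FX.Defs

/-!
DC project (helper23): definitions and statements.

Dense sets of primes and almost primes with boundedly many exceptions.

Every `St_X` below is the statement of one task; the doc comment is its complete proof.  The file of
a task is `Pool/Agent/W<yourseat>/DC/<Name>.lean`, the theorem has the name given in the comment.
-/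

namespace Pool.Agent.W23.DC

open Finset
open Pool.Agent.H442R2
open Pool.Agent.H442R2.KF

/-! ## Part 1: the Bessel inequality up to `N^θ`, `θ < 5/9`, for factorable rough moduli

The BX project (`Pool/Agent/H442R2/BX`) proves it for `θ < 14/27` and all rough moduli; the FX
project has the trilinear estimate `FX.WF` for one factorable variable.  Part 1 is the BX chain
redone with `FX.WF`. -/

/-- **WU** (theorem `WU : St_WU`; import `BX.Ks` (`BX.KS`), `FX.Wf` (`FX.WF : FX.St_WF`),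
`KF.Kfb` (`KF.kf_recip`); the same substitution argument is in `BX/Tu.lean`).

Trilinear forms with Kloosterman fractions, one factorable variable, unbalanced dyadic ranges.

Proof.  Part `k ≤ i`.  `l = i - k`, `M = 2^i`.  The substitution `n' = 2^l n` maps `(2^k, 2^(k+1)]`
into `(M, 2M]`.  Apply `FX.WF` with the same `γ` (the extra `r ≤ 2M + 1` changes nothing as
`γ r s ≠ 0` gives `r s ≤ 2^(i+1)`, `s ≥ 1`), `β' n' = if 2^l ∣ n' ∧ n'/2^l ∈ Ioc .. then β (n'/2^l)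
else 0`, `ψ' j t = ψ j (t / 2^l)` and the integer `b * 2^l`.  `Wei M V (ψ' j)`: `t ≥ M² = 2^(2i)` iff
`t/2^l ≥ 2^(i+k)`, and `V |t-t'|/2^l/2^(i+k) = V |t-t'|/M²`.  `|b 2^l| J ≤ V 2^(i+k) 2^l = V M²`.  As
`r s` is odd, `r s` and `2^l n` are coprime iff `r s` and `n` are, and
`ψ' j (m 2^l n) kf (j b 2^l) m (2^l n) = ψ j (m n) kf (j b) m n` (first part of `BX.KS`, `g = 2^l`).

Part `i ≤ k`.  By `kf_recip`, `ψ j (m n) kf (j b) m n = ψ' j (n m) conj (kf (j b) n m)` and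
`conj (kf c n m) = kf (-c) n m`, with `ψ' j t = ψ j t e(j b / t)` for `j ≤ J` (and `0` for `j > J`),
which satisfies `WeiP (2^(i+k)) (8 V)`: `|e(x) - e(y)| ≤ 2π |x - y|`,
`2π j |b| |1/t - 1/t'| ≤ 2π V P |t-t'|/P²`, `P = 2^(i+k)`.  Apply the first part with `i, k`
exchanged, `b := -b`, `8 V`. -/
def St_WU : Prop := ∀ ε : ℝ, 0 < ε → ∃ C : ℝ, 0 < C ∧ ∀ (i k S J : ℕ), 1 ≤ S → 1 ≤ J →
    ∀ V : ℝ, 1 ≤ V → ∀ ψ : ℕ → ℝ → ℂ, (∀ j, BX.WeiP ((2 : ℝ) ^ (i + k)) V (ψ j)) →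
    ∀ b : ℤ, b ≠ 0 → |(b : ℝ)| * J ≤ V * (2 : ℝ) ^ (i + k) →
    ∀ (γ : ℕ → ℕ → ℂ) (β : ℕ → ℂ), (∀ r s, ‖γ r s‖ ≤ 1) → (∀ n, ‖β n‖ ≤ 1) →
    (∀ n, β n ≠ 0 → Odd n) →
    (k ≤ i → (∀ r s, γ r s ≠ 0 →
        Squarefree (r * s) ∧ Odd (r * s) ∧ r * s ∈ Ioc (2 ^ i) (2 ^ (i + 1))) →
      ‖∑ s ∈ Ico S (2 * S), ∑ r ∈ Icc 1 (2 ^ (i + 1)),
        ∑ n ∈ (Ioc (2 ^ k) (2 ^ (k + 1))).filter (fun n => Nat.Coprime (r * s) n),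
          γ r s * β n * FF ψ b J n (r * s)‖ ^ 2 ≤
        C * (V * (2 : ℝ) ^ i) ^ ε * V * (((2 : ℝ) ^ i) ^ 4 * J / S +
          ((2 : ℝ) ^ i) ^ (7 / 2 : ℝ) * (J : ℝ) ^ 2 * (S : ℝ) ^ (1 / 2 : ℝ))) ∧
    (i ≤ k → (∀ r s, γ r s ≠ 0 →
        Squarefree (r * s) ∧ Odd (r * s) ∧ r * s ∈ Ioc (2 ^ k) (2 ^ (k + 1))) →
      ‖∑ s ∈ Ico S (2 * S), ∑ r ∈ Icc 1 (2 ^ (k + 1)),
        ∑ m ∈ (Ioc (2 ^ i) (2 ^ (i + 1))).filter (fun m => Nat.Coprime (r * s) m),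
          γ r s * β m * FF ψ b J (r * s) m‖ ^ 2 ≤
        C * (V * (2 : ℝ) ^ k) ^ ε * V * (((2 : ℝ) ^ k) ^ 4 * J / S +
          ((2 : ℝ) ^ k) ^ (7 / 2 : ℝ) * (J : ℝ) ^ 2 * (S : ℝ) ^ (1 / 2 : ℝ)))

/-- **BCF** (theorem `BCF (hWU : St_WU) (hPW : BX.St_PW) : St_BCF`; combine `BX/Bc.lean`, theorem
`BX.BC` (same reduction: `BX.TaskBC.sum_eq`, `trivial_bd` can be imported) and `FX/Ef.lean`, theorem
`FX.EF` (same decomposition over the dyadic size of the divisor: `FX.TaskEF.decomp`, ...)).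

Proof.  As in `BX.BC`: `P = 2^(i+k)`, `M = 2^max i k`, `J = JB N i k ≤ 4 P log N/N ≤ 4 M² log N/N`;
`J = 0` and `N < N₀` trivial.  By `BX.TaskBC.sum_eq` the sum is
`(N/P) ∑_m ∑_n α_m β_n FF (psB N J a P σ ω) (σ (a'-a)) J n m`, `α_m = if q ∣ m then c (m/q) else 0`,
`β_n = c' n`.  Weights `WeiP P (100 log N)` by PW, `|σ(a'-a)| J ≤ 100 log N P`.

Case `k ≤ i` (`M = 2^i`).  If `α_m ≠ 0`, then `m = q d`, `d = m/q` with `c d ≠ 0`, so `m` is odd and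
squarefree (`q`, `d` squarefree and coprime), and `d`, hence `m`, has a divisor `s₁(m)` in
`[N^(2θ-1+δ), N^(4-7θ-δ)]`.  Decompose `∑_m α_m G(m) = ∑_l ∑_{s ∈ Ico (2^l) (2·2^l)} ∑_r γ_l(r,s) G(r s)`
as in `EF` (there the range is `Ioc M (2M+1)`, here use `M = 2^i` and coefficients that vanish at
`2M + 1`).  WU (first part) for every `l`, `S = 2^l`, `N^(2θ-1+δ)/2 ≤ S ≤ N^(4-7θ-δ)`:
`J/S ≤ 4 M² log N/(N S) ≤ 8 log N N^(-δ)` (`M ≤ N^θ`), and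
`J² S^(1/2) M^(-1/2) ≤ 16 log² N M^(7/2) S^(1/2)/N² ≤ 16 log² N N^(-δ/2)`.
So `|T_l|² ≤ C (N²)^ε' (log N)^3 M⁴ N^(-δ/2)`, `ε' = δ/24`, `|T_l| ≤ C M² N^(-δ/8)`, the number of
`l` is `≤ 7 log N`, and `(N/P) M² = N 2^(max - min)`.

Case `i < k`: the same with the divisor `s₁(n)` of `n = d'` (`c' n ≠ 0`) and the second part of WU
(`M = 2^k`). -/
def St_BCF : Prop := ∀ θ δ : ℝ, 1 / 2 ≤ θ → θ < 5 / 9 → 0 < δ → ∃ (η C : ℝ), 0 < η ∧ 0 < C ∧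
    ∀ (N q i k : ℕ), 3 ≤ N → 1 ≤ q → Odd q → Squarefree q →
    (2 : ℝ) ^ i ≤ (N : ℝ) ^ θ → (2 : ℝ) ^ k ≤ (N : ℝ) ^ θ →
    ∀ (a a' σ : ℤ), |(a : ℝ)| ≤ N → |(a' : ℝ)| ≤ N → a ≠ a' → (σ = 1 ∨ σ = -1) →
    ∀ c c' : ℕ → ℝ, BX.CofO q c → BX.CofO q c' → (∀ d, c d ≠ 0 → FX.FacD N θ δ d) →
    (∀ d, c' d ≠ 0 → FX.FacD N θ δ d) → ∀ r r' : ℕ,
    (∀ d, c d ≠ 0 → d % q = r) → (∀ d, c' d ≠ 0 → d % q = r') →
    ‖∑ j ∈ Icc 1 (BX.JB N i k), ∑ d ∈ BX.bx q i,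
      ∑ d' ∈ (Ioc (2 ^ k) (2 ^ (k + 1))).filter (fun d' => Nat.Coprime d d'),
        BX.trB N a a' q σ c c' j d d'‖ ≤
      C * (2 : ℝ) ^ (max i k - min i k) * (N : ℝ) ^ (1 - η)

/-- **BBF** (theorem `BBF (hBCF : St_BCF) : St_BBF`; copy and adapt `BX/Bb.lean`, theorem `BX.BB`:
the residue classes are removed at the cost `q²`; the extra hypotheses pass to the restricted
coefficients). -/
def St_BBF : Prop := ∀ θ δ : ℝ, 1 / 2 ≤ θ → θ < 5 / 9 → 0 < δ → ∃ (η C : ℝ), 0 < η ∧ 0 < C ∧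
    ∀ (N q i k : ℕ), 3 ≤ N → 1 ≤ q → Odd q → Squarefree q →
    (2 : ℝ) ^ i ≤ (N : ℝ) ^ θ → (2 : ℝ) ^ k ≤ (N : ℝ) ^ θ →
    ∀ (a a' σ : ℤ), |(a : ℝ)| ≤ N → |(a' : ℝ)| ≤ N → a ≠ a' → (σ = 1 ∨ σ = -1) →
    ∀ c c' : ℕ → ℝ, BX.CofO q c → BX.CofO q c' → (∀ d, c d ≠ 0 → FX.FacD N θ δ d) →
    (∀ d, c' d ≠ 0 → FX.FacD N θ δ d) →
    ‖∑ j ∈ Icc 1 (BX.JB N i k), ∑ d ∈ BX.bx q i,
      ∑ d' ∈ (Ioc (2 ^ k) (2 ^ (k + 1))).filter (fun d' => Nat.Coprime d d'),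
        BX.trB N a a' q σ c c' j d d'‖ ≤
      C * (q : ℝ) ^ 2 * (2 : ℝ) ^ (max i k - min i k) * (N : ℝ) ^ (1 - η)

/-- **COF** (theorem `COF (hBBF : St_BBF) (hSV : BX.St_SV) : St_COF`; copy and adapt the final
theorem `BX.CO` of `BX/Co.lean`; all its auxiliary lemmas (`TaskCO.box`, `triv`, `boxes`, `clog_le`)
can be imported).

Proof.  As `BX.CO` with `θ' = θ + κ`, `κ = min ((5/9 - θ)/2) (δ/16)` in place of
`(θ + 14/27)/2`, and BBF at `θ'`, `δ' = δ/2`: `FacD N θ δ d` implies `FacD N θ' δ' d`, because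
`2θ' - 1 + δ' ≤ 2θ - 1 + δ` and `4 - 7θ - δ ≤ 4 - 7θ' - δ'` (`7κ ≤ δ/2`).  The restricted
coefficients inherit the support property. -/
def St_COF : Prop := ∀ θ δ : ℝ, 1 / 2 ≤ θ → θ < 5 / 9 → 0 < δ →
    ∃ (ε₀ η C : ℝ), 0 < ε₀ ∧ 0 < η ∧ 0 < C ∧
    ∀ (N q D0 X : ℕ), 2 ≤ N → 1 ≤ q → Odd q → Squarefree q → (q : ℝ) ≤ (N : ℝ) ^ ε₀ →
    (X : ℝ) ≤ (N : ℝ) ^ θ → 1 ≤ D0 → (X : ℝ) ≤ (N : ℝ) ^ ε₀ * D0 →
    ∀ (a a' : ℤ), |(a : ℝ)| ≤ N → |(a' : ℝ)| ≤ N → a ≠ a' →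
    ∀ c c' : ℕ → ℝ, BX.CofO q c → BX.CofO q c' → (∀ d, c d ≠ 0 → FX.FacD N θ δ d) →
    (∀ d, c' d ≠ 0 → FX.FacD N θ δ d) →
    |∑ d ∈ Ioc D0 X, ∑ d' ∈ (Ioc D0 X).filter (fun d' => Nat.Coprime d d'), c d * c' d' *
      (BX.SE N a a' q d d' - N / (q * d * d'))| ≤ C * (N : ℝ) ^ (1 - η)

/-- Selberg weights supported on squarefree numbers -/
structure SWs (z : ℕ) (lam : ℕ → ℝ) : Prop where
  sw : BX.SW z lam
  sqf : ∀ q, lam q ≠ 0 → Squarefree q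

/-- **WXS** (theorem `WXS : St_WXS`).

Proof.  The proof of `BX.WX` (`BX/Wx.lean`) uses `sel_weights_q 2` of
`Pool/Agent/H376R2/TT/Selwq.lean`, whose witness is `selwq_l 2 z`; repeat its proof (the last
theorem of that file) for this explicit witness; `selwq_l q D d` contains the factor `μ(d)`. -/
def St_WXS : Prop := ∀ z : ℕ, 2 ≤ z → ∃ lam : ℕ → ℝ, SWs z lam

/-- **TTF** (theorem
`TTF (hCOF : St_COF) (hSM : BX.St_SM) (hEX : BX.St_EX) (hNC : BX.St_NC) (hRB : BX.St_RB)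
(hPB : BX.St_PB) : St_TTF`; copy and adapt the final theorem of `BX/Tt.lean`: the only changes are
that `lcm q₁ q₂` is squarefree for squarefree `q₁`, `q₂`, and the support property is passed on). -/
def St_TTF : Prop := ∀ θ δ ε : ℝ, 1 / 2 ≤ θ → θ < 5 / 9 → 0 < δ → 0 < ε →
    ∃ (ε₀ η C : ℝ), 0 < ε₀ ∧ 0 < η ∧ 0 < C ∧
    ∀ (N z D0 X : ℕ), 2 ≤ N → 1 ≤ z → (z : ℝ) ≤ (N : ℝ) ^ ε₀ → (X : ℝ) ≤ (N : ℝ) ^ θ → 1 ≤ D0 →
    (X : ℝ) ≤ (N : ℝ) ^ ε₀ * D0 → ∀ lam : ℕ → ℝ, SWs z lam →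
    ∀ c c' : ℕ → ℝ, BX.CofR ((N : ℝ) ^ ε) X c → BX.CofR ((N : ℝ) ^ ε) X c' →
    (∀ d, c d ≠ 0 → D0 < d ∧ FX.FacD N θ δ d) → (∀ d, c' d ≠ 0 → D0 < d ∧ FX.FacD N θ δ d) →
    ∀ (a a' : ℤ), |(a : ℝ)| ≤ N → |(a' : ℝ)| ≤ N → a ≠ a' →
    |∑' n : ℤ, Wt N n * BX.nuS lam z n * (BX.rf c X a n * BX.rf c' X a' n)| ≤
      C * (N : ℝ) ^ (1 - η)

/-- **BKF** (theorem
`BKF (hTTF : St_TTF) (hDI : BX.St_DI) (hDU : BX.St_DU) (hPR : BX.St_PR) (hWXS : St_WXS)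
(hGW : BX.St_GW) (hEX : BX.St_EX) : St_BKF`; copy and adapt the final theorem `BX.BK` of
`BX/Bk.lean`; the coefficients `c_a` of PR have support in `T a`). -/
def St_BKF : Prop := ∀ θ δ ε : ℝ, 1 / 2 ≤ θ → θ < 5 / 9 → 0 < δ → 0 < ε →
    ∃ (ε₀ η C : ℝ), 0 < ε₀ ∧ 0 < η ∧ 0 < C ∧
    ∀ (N D0 X : ℕ), 2 ≤ N → (X : ℝ) ≤ (N : ℝ) ^ θ → 1 ≤ D0 → (X : ℝ) ≤ (N : ℝ) ^ ε₀ * D0 →
    ∀ f : ℕ → ℝ, (∀ p, |f p| ≤ 1) → ∀ A : Finset ℤ, (∀ a ∈ A, |(a : ℝ)| ≤ N) →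
    ∀ T : ℤ → Finset ℕ,
    (∀ a ∈ A, ∀ d ∈ T a, D0 < d ∧ d ≤ X ∧ BX.Rough ((N : ℝ) ^ ε) d ∧ FX.FacD N θ δ d) →
    ∑ a ∈ A, (∑ d ∈ T a, |BX.Df f N a d|) ^ 2 ≤
      C * (N / Real.log N) ^ 2 * (1 + A.card * (N : ℝ) ^ (-η))

/-- squarefree `d` with a divisor `s`, `d² N^(δ-1) ≤ s ≤ N^(4-δ) d^(-7)` -/
def FacO (N : ℕ) (δ : ℝ) (d : ℕ) : Prop :=
  Squarefree d ∧ ∃ s : ℕ, s ∣ d ∧ (d : ℝ) ^ 2 * (N : ℝ) ^ (δ - 1) ≤ s ∧
    (s : ℝ) * (d : ℝ) ^ 7 ≤ (N : ℝ) ^ (4 - δ)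

open Classical in
/-- rough moduli up to `N^θ`, factorable if they exceed `N^(51/100)` -/
noncomputable def facR (N : ℕ) (θ ε δ : ℝ) : Finset ℕ :=
  (BX.roughs ((N : ℝ) ^ ε) ⌊(N : ℝ) ^ θ⌋₊).filter
    (fun d => (d : ℝ) ≤ (N : ℝ) ^ (51 / 100 : ℝ) ∨ FacO N δ d)

/-- **FIF** (theorem `FIF (hBKF : St_BKF) (hFI : BX.St_FI) : St_FIF`; compare `BX/Fi.lean`).

Proof.  If `θ < 51/100`, all moduli are `≤ N^(51/100)` and `hFI` (with `θ := 51/100 < 14/27`,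
`T a = facR ..` for every `a`) gives the claim.  In general the moduli `d ≤ N^(51/100)` are covered
by `hFI`, and it remains to treat `N^(51/100) < d ≤ N^θ`, `θ ≥ 51/100`; these are factorable.  Let
`κ = min (δ/32) (min (1/200) ((5/9 - θ)/2))` and cover `[51/100, θ]` by finitely many windows
`[θ_j - κ, θ_j]`, `1/2 ≤ θ_j ≤ θ + κ < 5/9` (for instance `θ_j = 51/100 + (j+1) κ` or `θ`; the
number of windows depends on `θ, δ` only).  Let `ε_j, η_j, C_j` be the constants of BKF at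
`θ_j, δ/2, ε`.  Cut the window `j` into finitely many blocks `(D, X]` with `X ≤ N^(ε_j) D`,
`X ≤ N^(θ_j)`, `D ≥ N^(θ_j - κ)/2` (for instance `D_i = ⌊N^(θ_j - κ + i ε_j/2)⌋`, and
`X_i = min D_(i+1) ⌊N^(θ_j)⌋`; `N^(ε_j/2) ≥ 2` for `N ≥ N₀`).  A factorable `d` of such a block
satisfies `FacD N θ_j (δ/2) d` for `N ≥ N₀`: `s ≥ d² N^(δ-1) ≥ N^(2θ_j - 2κ + δ - 1)/4 ≥
N^(2θ_j - 1 + δ/2)` and `s ≤ N^(4-δ) d^(-7) ≤ 2^7 N^(4 - δ - 7θ_j + 7κ) ≤ N^(4 - 7θ_j - δ/2)`.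
The number of blocks (over all windows) is bounded; `(∑_{blocks} x)² ≤ (number) ∑ x²` and BKF for
every block (a lemma: induction over a finite list of pairs (block, constants); or first take
`ε₀ = min ε_j`, `η = min η_j`, `C = max C_j`).  Small `N` trivial as in `BX/Fi.lean`
(`TaskFI.triv`). -/
def St_FIF : Prop := ∀ θ δ ε : ℝ, θ < 5 / 9 → 0 < δ → 0 < ε → ∃ (η C : ℝ), 0 < η ∧ 0 < C ∧
    ∀ N : ℕ, 2 ≤ N → ∀ f : ℕ → ℝ, (∀ p, |f p| ≤ 1) → ∀ A : Finset ℤ, (∀ a ∈ A, |(a : ℝ)| ≤ N) →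
    ∑ a ∈ A, (∑ d ∈ facR N θ ε δ, |BX.Df f N a d|) ^ 2 ≤
      C * (N / Real.log N) ^ 2 * (1 + A.card * (N : ℝ) ^ (-η))

/-! ## Part 2: the linear sieve on rough numbers -/

open Classical in
/-- the recursion of the linear sieve: `P` a finite set of primes, `t` the sizes, `G` the counting
function, `τ` the level, `ζ` the sifting limit (both on the logarithmic scale), `k` the number of
iterations, `true` for the upper and `false` for the lower bound -/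
noncomputable def LL (P : Finset ℕ) (t : ℕ → ℝ) (G : ℕ → ℝ) : ℕ → Bool → ℝ → ℝ → ℕ → ℝ
  | 0, true, _, _, d => G d
  | 0, false, _, _, _ => 0
  | k + 1, true, τ, ζ, d => G d - ∑ p ∈ P.filter (fun p => t p < ζ ∧ 3 * t p < τ),
      LL P t G k false (τ - t p) (t p) (d * p)
  | k + 1, false, τ, ζ, d => G d - ∑ p ∈ P.filter (fun p => t p < ζ),
      LL P t G k true (τ - t p) (t p) (d * p)

open Classical in
/-- the same recursion with weights -/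
noncomputable def MM (P : Finset ℕ) (t : ℕ → ℝ) (g : ℕ → ℝ) : ℕ → Bool → ℝ → ℝ → ℝ
  | 0, true, _, _ => 1
  | 0, false, _, _ => 0
  | k + 1, true, τ, ζ => 1 - ∑ p ∈ P.filter (fun p => t p < ζ ∧ 3 * t p < τ),
      g p * MM P t g k false (τ - t p) (t p)
  | k + 1, false, τ, ζ => 1 - ∑ p ∈ P.filter (fun p => t p < ζ),
      g p * MM P t g k true (τ - t p) (t p)

/-- `P` consists of primes, `t` is positive and increasing on `P` -/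
structure Siz (P : Finset ℕ) (t : ℕ → ℝ) : Prop where
  pr : ∀ p ∈ P, p.Prime
  pos : ∀ p ∈ P, 0 < t p
  mono : ∀ p ∈ P, ∀ q ∈ P, (t p < t q ↔ p < q)

open Classical in
/-- **PT** (theorem `PT : St_PT`).  The sieve inequalities, pointwise.

Proof.  Induction on `k`, for all `d, τ, ζ` at once.  Write `I(ζ, d)` for the middle term.  `k = 0`:
`0 ≤ I ≤ 1_{d | n}`.  Step: if `d ∤ n` all terms vanish (show by a separate induction that `LL = 0` if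
`d ∤ n`).  If `d ∣ n`: for `p ∈ P`, `t p < ζ`, `p ∤ d`: `d p ∣ n ↔ p ∣ n`, and the hypothesis holds for
`(d p, t p)` (a `p' ∈ P` with `t p' < t p` is a prime `≠ p` not dividing `d`).  The identity
`I(ζ, d) = 1 - ∑_{p ∈ P, t p < ζ} I(t p, d p)`: exactly one summand is `1` (the smallest
`p ∈ P` with `t p < ζ` dividing `n`) if there is such a `p`, none otherwise.  Hence
`LL (k+1) false ≤ 1 - ∑ I(t p, d p) = I(ζ, d)` (`LL k true ≥ I`) and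
`LL (k+1) true ≥ 1 - ∑_{t p < ζ, 3 t p < τ} I(t p, d p) ≥ 1 - ∑_{t p < ζ} I(t p, d p) = I(ζ, d)`. -/
def St_PT : Prop := ∀ (P : Finset ℕ) (t : ℕ → ℝ), Siz P t → ∀ (n k : ℕ) (τ ζ : ℝ) (d : ℕ),
    (∀ p ∈ P, t p < ζ → ¬ p ∣ d) →
    (if d ∣ n ∧ ∀ p ∈ P, t p < ζ → ¬ p ∣ n then (1 : ℝ) else 0) ≤
      LL P t (fun e => if e ∣ n then 1 else 0) k true τ ζ d ∧
    LL P t (fun e => if e ∣ n then 1 else 0) k false τ ζ d ≤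
      (if d ∣ n ∧ ∀ p ∈ P, t p < ζ → ¬ p ∣ n then (1 : ℝ) else 0)

/-- **LN** (theorem `LN : St_LN`).  Linearity, and the main term.

Proof.  Inductions on `k` (all other variables general). -/
def St_LN : Prop :=
    (∀ (P : Finset ℕ) (t : ℕ → ℝ) (A : Finset ℕ) (G : ℕ → ℕ → ℝ) (k : ℕ) (b : Bool) (τ ζ : ℝ)
      (d : ℕ), LL P t (fun e => ∑ a ∈ A, G a e) k b τ ζ d = ∑ a ∈ A, LL P t (G a) k b τ ζ d) ∧
    (∀ (P : Finset ℕ) (t : ℕ → ℝ) (x : ℝ) (G₁ G₂ : ℕ → ℝ) (k : ℕ) (b : Bool) (τ ζ : ℝ)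
      (d : ℕ), LL P t (fun e => x * G₁ e + G₂ e) k b τ ζ d =
        x * LL P t G₁ k b τ ζ d + LL P t G₂ k b τ ζ d) ∧
    (∀ (P : Finset ℕ) (t : ℕ → ℝ), Siz P t → ∀ g G : ℕ → ℝ,
      (∀ d, ∀ p ∈ P, ¬ p ∣ d → G (d * p) = G d * g p) → ∀ (k : ℕ) (b : Bool) (τ ζ : ℝ) (d : ℕ),
      (∀ p ∈ P, t p < ζ → ¬ p ∣ d) → LL P t G k b τ ζ d = G d * MM P t g k b τ ζ)

/-- the size of a (squarefree) number -/
noncomputable def sz (t : ℕ → ℝ) (e : ℕ) : ℝ := ∑ p ∈ e.primeFactors, t p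

/-- well-factorable of level `τ` -/
def WFac (t : ℕ → ℝ) (τ : ℝ) (e : ℕ) : Prop :=
  ∀ a b : ℝ, 0 ≤ a → 0 ≤ b → a + b = τ → ∃ u v : ℕ, u * v = e ∧ sz t u ≤ a ∧ sz t v ≤ b

open Classical in
/-- products of distinct elements of `P` below `ζ`, well-factorable of level `τ` -/
noncomputable def EE (P : Finset ℕ) (t : ℕ → ℝ) (τ ζ : ℝ) : Finset ℕ :=
  ((P.filter (fun p => t p < ζ)).powerset.image (fun s => ∏ p ∈ s, p)).filter (WFac t τ)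

/-- **ER** (theorem `ER : St_ER`).  The error term.

Proof.  Induction on `k`, for all `b, τ, ζ, d`.  `1 ∈ EE P t τ ζ` (empty product; `WFac t τ 1` with
`u = v = 1`), which gives the case `k = 0` and the term `|r d|`.  Step: the recursion calls
`(τ - t p, t p)` for `p ∈ P`, `t p < ζ`, and `3 t p < τ` if `b = true`; in that case
`2 t p ≤ τ - t p`, so the hypothesis for `false` holds; also `0 ≤ τ - t p`.  If `b = false`,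
`t p < ζ ≤ τ/2`.  In both cases `t p ≤ τ/2`.  The map `(p, e) ↦ p e`, `e ∈ EE P t (τ - t p) (t p)`,
is injective (`p` is the largest prime factor of `p e`, as the prime factors of `e` are
`p' ∈ P` with `t p' < t p`, so `p' < p`), avoids `1`, and maps into `EE P t τ ζ`: `p e` is the
product over `insert p s`; `WFac`: given `a + b = τ`, `max a b ≥ τ/2 ≥ t p`, say `a ≥ t p` (the
other case is symmetric); `WFac t (τ - t p) e` with `(a - t p, b)` gives `e = u v`, and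
`p e = (p u) v` with `sz t (p u) = t p + sz t u ≤ a` (`p ∤ u`). -/
def St_ER : Prop := ∀ (P : Finset ℕ) (t : ℕ → ℝ), Siz P t → ∀ (r : ℕ → ℝ) (k : ℕ) (b : Bool)
    (τ ζ : ℝ) (d : ℕ), 0 ≤ τ → (b = false → 2 * ζ ≤ τ) →
    |LL P t r k b τ ζ d| ≤ ∑ e ∈ EE P t τ ζ, |r (d * e)|

/-- the functions of the linear sieve (up to the value of the constant) -/
structure SF (A0 : ℝ) (F f : ℝ → ℝ) : Prop where
  pos : 0 < A0
  cF : ContinuousOn F (Set.Ici 1)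
  cf : ContinuousOn f (Set.Ici 1)
  F3 : ∀ s, 1 ≤ s → s ≤ 3 → F s = A0 / s
  f2 : ∀ s, 1 ≤ s → s ≤ 2 → f s = 0
  f4 : ∀ s, 2 ≤ s → s ≤ 4 → f s = A0 * Real.log (s - 1) / s
  F1 : ∀ s, 1 ≤ s → 1 ≤ F s
  f1 : ∀ s, 1 ≤ s → f s ≤ 1
  eF : ∀ s, 3 ≤ s → s * F s = A0 + ∫ x in (3 : ℝ)..s, f (x - 1)
  ef : ∀ s, 2 ≤ s → s * f s = ∫ x in (2 : ℝ)..s, F (x - 1)

/-- **SFX** (theorem `SFX : St_SFX`).  Existence.

Proof.  (1) With `A0 = 1` construct `F, f` on `[1, n]` by induction on `n` (or define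
`F = f = …` by the integral equations; each of them on `(n, n+1]` only uses values on `[1, n]`):
`F = 1/s` on `[1,3]`, `f = 0` on `[1,2]`, `s F(s) = 1 + ∫_3^s f(x-1) dx` (`s ≥ 3`),
`s f(s) = ∫_2^s F(x-1) dx` (`s ≥ 2`).  Both are continuous, `≥ 0`; `F > 0`.  One way to construct:
the pair is the limit of the iteration (`F_0 = 1/s`, `f_0 = 0`, apply the right sides), which is
stationary on `[1, n]` after `2 n` steps.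
(2) `Q = F - f` satisfies `(s Q(s))' = -Q(s-1)` for `s > 2` (for `2 < s < 3`:
`(sF)' = 0`, `(s f)' = F(s-1) = 1/(s-1)`, `f(s-1) = 0`).  Therefore
`s (s-1) Q(s) = ∫_{s-1}^s x Q(x) dx` for all `s ≥ 2` (both sides are `1` at `s = 2`, where
`Q(x) = 1/x` on `[1,2]`, and the derivatives agree: `(s-1)(sQ)' + sQ(s) = -(s-1)Q(s-1) + s Q(s)`).
Hence `Q > 0` on `[1, ∞)` (at the first zero `s > 2` the right side is positive).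
(3) `F` is antitone and `f` is monotone on `[1, ∞)`: on `(3, ∞)` `s F'(s) = f(s-1) - F(s)`, on
`(2, ∞)` `s f'(s) = F(s-1) - f(s)`.  Let `S` be the set of `s ≥ 3` such that `F` is antitone and `f`
monotone on `[1, s]`.  `3 ∈ S` (`f` on `[2,3]`: `f = log(s-1)/s`, or: `s f'(s) = F(s-1) - f(s) ≥
F(s) - f(s) > 0` as `F` is decreasing on `[1,3]`).  If `s ∈ S` then `f(s-1) ≤ f(s) < F(s)` and
`f(s) < F(s) ≤ F(s-1)`, so by continuity both derivatives have the right sign on `(s, s + κ)`;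
`S` is closed; so `S = [3, ∞)`.
(4) So `sup f ≤ inf F`: for `s, s'` and `x = max s s'`: `f(s) ≤ f(x) < F(x) ≤ F(s')`.  Let
`L = inf_{s ≥ 1} F`; `L > 0` since `L ≥ f(3) = log 2/3 > 0`.  The functions `F/L`, `f/L` with
`A0 = 1/L` satisfy everything; `f4` by evaluating the integral `∫_2^s dx/(x-1)`. -/
def St_SFX : Prop := ∃ (A0 : ℝ) (F f : ℝ → ℝ), SF A0 F f

open Classical in
/-- Mertens' formula up to `η` on `[ε₁, w]` for the weights `g` -/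
def Mer (P : Finset ℕ) (t g : ℕ → ℝ) (ε₁ w η : ℝ) : Prop :=
  ∀ a b : ℝ, ε₁ ≤ a → a ≤ b → b ≤ w →
    |∑ p ∈ P.filter (fun p => a ≤ t p ∧ t p < b), g p - Real.log (b / a)| ≤ η

open Classical in
/-- **MI** (theorem `MI : St_MI`).  Sums over primes and integrals.

Proof.  Let `m = ⌈1/ρ⌉₊ + 1`, `η = min 1 (κ/(m H))`.  Cut `[a, b]` into `m` equal intervals
`[x_i, x_{i+1}]` (length `≤ ρ` as `b - a ≤ 1`).  On one of them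
`|∑ g_p h(t_p) - h(x_i) ∑ g_p| ≤ κ ∑ g_p`, `|∫ h(x)/x - h(x_i) log(x_{i+1}/x_i)| ≤
κ log(x_{i+1}/x_i)`, `|h(x_i)| |∑ g_p - log(x_{i+1}/x_i)| ≤ H η`.  Total
`≤ m H η + κ (∑_{a ≤ t p < b} g_p + log(b/a)) ≤ κ + κ (2 log(1/ε₁) + 1)`. -/
def St_MI : Prop := ∀ ε₁ ρ κ H : ℝ, 0 < ε₁ → ε₁ ≤ 1 → 0 < ρ → 0 < κ → 0 < H →
    ∃ η : ℝ, 0 < η ∧ ∀ (P : Finset ℕ) (t g : ℕ → ℝ) (w : ℝ), w ≤ 1 → (∀ p ∈ P, 0 ≤ g p) →
    Mer P t g ε₁ w η → ∀ (a b : ℝ) (h : ℝ → ℝ), ε₁ ≤ a → a ≤ b → b ≤ w →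
    ContinuousOn h (Set.Icc a b) → (∀ x ∈ Set.Icc a b, |h x| ≤ H) →
    (∀ x ∈ Set.Icc a b, ∀ y ∈ Set.Icc a b, |x - y| ≤ ρ → |h x - h y| ≤ κ) →
    |∑ p ∈ P.filter (fun p => a ≤ t p ∧ t p < b), g p * h (t p) - ∫ x in a..b, h x / x| ≤
      κ * (2 * Real.log (1 / ε₁) + 2)

/-- **MT** (theorem `MT (hMI : St_MI) : St_MT`).  The main terms of the linear sieve.

Proof.  Let `B = log(1/ε₁) + 1` (`∑_{p ∈ P, t p < ζ} g p ≤ B`) and `η₁ = η'/(1+B)^K`.  The functions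
`h_τ(x) = (ε₁/x) f((τ-x)/x)` on `ε₁ ≤ x ≤ τ/2` and `H_τ(x) = (ε₁/x) F((τ-x)/x)` on the same range
are, as functions of `(τ, x)` on the compact set `{2ε₁ ≤ τ ≤ 1, ε₁ ≤ x ≤ τ/2}`, continuous, hence
bounded and uniformly continuous; so MI gives `η` such that the sums below equal the integrals up
to `η₁`.  Claim, by induction on `k ≤ K`, with error `η₁ (1+B)^k`:
(U) `MM k true τ ζ ≤ (ε₁/ζ) F(τ/ζ) + η₁ (1+B)^k`, (L) if `2ζ ≤ τ`: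
`(ε₁/ζ) f(τ/ζ) - η₁ (1+B)^k ≤ MM k false τ ζ`.
`k = 0`: `τ ≤ 2ε₁`; (U): `ζ ≤ τ ≤ 2ε₁ ≤ 2ζ`, so `(ε₁/ζ) F(τ/ζ) = ε₁ A0/τ ≥ A0/2 ≥ 1`
(`A0 = 3 F(3) ≥ 3`).  (L): `2ζ ≤ τ ≤ 2ε₁ ≤ 2ζ`, so `τ/ζ = 2`, `f(2) = 0`.
Step (U): if `τ < 3ε₁` the sum is empty (`3 t p ≥ 3ε₁ > τ`) and `MM = 1`; `τ/ζ < 3`, so
`(ε₁/ζ) F(τ/ζ) = ε₁ A0/τ > A0/3 ≥ 1`.  Otherwise `b = min ζ (τ/3) ≥ ε₁` and the sum is over
`ε₁ ≤ t p < b`; `2 t p ≤ τ - t p`, `τ - t p ≤ (k+2) ε₁`, `t p ≤ w`, so by induction (L)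
`MM (k+1) true τ ζ ≤ 1 - ∑ g_p h_τ(t p) + B η₁ (1+B)^k ≤ 1 - ∫_{ε₁}^b h_τ(x)/x dx + η₁ + B η₁(1+B)^k`.
Substituting `u = τ/x`: `∫_{ε₁}^b (ε₁/x²) f(τ/x - 1) dx = (ε₁/τ) ∫_{τ/b}^{τ/ε₁} f(u-1) du =
(ε₁/τ) ((τ/ε₁) F(τ/ε₁) - (τ/b) F(τ/b)) = F(τ/ε₁) - (ε₁/b) F(τ/b)` (`eF`, `τ/b ≥ 3`), and
`F(τ/ε₁) ≥ 1`: total `≤ (ε₁/b) F(τ/b) + η₁ (1+B)^(k+1)`; if `b = ζ` done; if `b = τ/3 < ζ`:
`(ε₁/b) F(τ/b) = (3ε₁/τ)(A0/3) = ε₁ A0/τ = (ε₁/ζ) F(τ/ζ)` as `τ/ζ ≤ 3`.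
Step (L): `2ζ ≤ τ`, sum over `ε₁ ≤ t p < ζ`; `t p ≤ τ - t p`.  By induction (U) the same computation
with `ef`: `∫_{ε₁}^ζ (ε₁/x²) F(τ/x - 1) dx = f(τ/ε₁) - (ε₁/ζ) f(τ/ζ)` and `f(τ/ε₁) ≤ 1`. -/
def St_MT : Prop := ∀ (A0 : ℝ) (F f : ℝ → ℝ), SF A0 F f → ∀ (ε₁ η' : ℝ) (K : ℕ), 0 < ε₁ →
    ε₁ ≤ 1 → 0 < η' → ∃ η : ℝ, 0 < η ∧ ∀ (P : Finset ℕ) (t g : ℕ → ℝ) (w : ℝ), w ≤ 1 →
    (∀ p ∈ P, 0 ≤ g p) → (∀ p ∈ P, ε₁ ≤ t p) → Mer P t g ε₁ w η → ∀ k : ℕ, k ≤ K →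
    ∀ τ ζ : ℝ, τ ≤ (k + 2) * ε₁ → ε₁ ≤ ζ → ζ ≤ w → ζ ≤ τ → τ ≤ 1 →
      MM P t g k true τ ζ ≤ ε₁ / ζ * F (τ / ζ) + η' ∧
      (2 * ζ ≤ τ → ε₁ / ζ * f (τ / ζ) - η' ≤ MM P t g k false τ ζ)

/-! ## Part 3: primes -/

/-- the logarithmic size -/
noncomputable def tt (N : ℕ) (p : ℕ) : ℝ := Real.log p / Real.log N

open Classical in
/-- the primes `p ≤ N` with `N^u ≤ p < N^v` -/
noncomputable def pr (N : ℕ) (u v : ℝ) : Finset ℕ :=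
  (Icc 1 N).filter (fun p => p.Prime ∧ u ≤ tt N p ∧ tt N p < v)

/-- **MP** (theorem `MP : St_MP`).  Mertens.

Proof.  `Pool.Agent.Helper256.KM.mertens_inv` (`|∑_{p ≤ x} 1/p - log log x - c| ≤ C/log x`; search
also for `mertens` in the tree) for `x = N^a`, `N^b` (or the largest integers below), the
difference between `1/(p-1)` and `1/p` (`∑_{p ≥ N^ε₁} 1/(p(p-1)) ≤ 2 N^(-ε₁)`), and
`log log N^b - log log N^a = log(b/a)`. -/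
def St_MP : Prop := ∀ ε₁ η : ℝ, 0 < ε₁ → 0 < η → ∃ N₀ : ℕ, ∀ N : ℕ, N₀ ≤ N → ∀ a b : ℝ,
    ε₁ ≤ a → a ≤ b → b ≤ 1 → |∑ p ∈ pr N a b, 1 / ((p : ℝ) - 1) - Real.log (b / a)| ≤ η

open Classical in
/-- **SP** (theorem `SP : St_SP`).  Smooth parts of shifted primes.

Proof.  Write `L = log N`, `y = N^ε₁`.  Let `p ≤ N` be a prime, `p ≠ a`, `n = |a - p| ≤ 2N`, and
`m ∣ n`, all prime factors of `m` below `y`, `m > N^ε'`.  Then `∏_{l | n, l < y} l` (radical part) or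
`∏_{l^j | n, j ≥ 2, l < y} l` (over all pairs `(l, j)`) exceeds `N^(ε'/2)`, i.e.
`R(p) = ∑_{l | n, l < y} log l > ε' L/2` or `R'(p) = ∑_{l^j | n, j ≥ 2} log l > ε' L/2`.
(a) `∑_p R(p)² = ∑_{l, l' < y} log l log l' #{p ≤ N : l, l' | a - p}`.  For `l ≠ l'` coprime to `a` the
modulus `l l' ≤ N^(1/4)` and Brun–Titchmarsh (`H617R3.BT.bt` in the tree, constant `2 + ε`, or any
other Brun–Titchmarsh theorem with an absolute constant) gives `≤ C N/(l l' L)`; if `l` divides `a`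
and `a - p` then `p = l`, so at most `2` values of `p`; diagonal `l = l'` similarly `≤ C N/(l L)`.
With `∑_{l < y} log l/l ≤ ε₁ L + C` (`Helper256.KM.mertens_log`): `∑_p R² ≤
C (N/L) ((ε₁ L + C)² + (ε₁ L)(ε₁ L + C)) + 2 y² L² ≤ C (N/L) (ε₁ L)²` for `N ≥ N₀`.  So
`#{p : R > ε' L/2} ≤ C (ε₁/ε')² N/L`.
(b) `∑_p R'(p) ≤ ∑_{l^j ≤ 2N, j ≥ 2} log l #{p ≤ N, p ≠ a : l^j | a - p}`; for `l^j ≤ N^(1/2)` by
Brun–Titchmarsh (`+ 1` if `l | a`) `≤ C N/(l^j L) + 1`; for `l^j > N^(1/2)` trivially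
`≤ 3N/l^j`.. (`≤ 2N/l^j + 1` integers): total `≤ C N/L` (`∑_{j ≥ 2} log l/l^j < ∞`,
`∑_{l^j > N^(1/2), j ≥ 2} log l/l^j ≤ C N^(-1/4) L`, number of prime powers `l^j ≤ 2N`, `j ≥ 2`, is
`≤ C N^(1/2) L`), so `#{p : R' > ε' L/2} ≤ C N/(ε' L²) ≤ (ε₁/ε')² N/L` for `N ≥ N₀`. -/
def St_SP : Prop := ∃ C : ℝ, 0 < C ∧ ∀ ε₁ ε' : ℝ, 0 < ε₁ → ε₁ ≤ 1 / 8 → 0 < ε' → ∃ N₀ : ℕ,
    ∀ N : ℕ, N₀ ≤ N → ∀ a : ℤ, |(a : ℝ)| ≤ N →
    (((Icc 1 N).filter (fun p : ℕ => p.Prime ∧ (p : ℤ) ≠ a ∧ ∃ m : ℕ, m ∣ (a - p).natAbs ∧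
      (∀ l : ℕ, l.Prime → l ∣ m → (l : ℝ) < (N : ℝ) ^ ε₁) ∧ (N : ℝ) ^ ε' < m)).card : ℝ) ≤
      C * (ε₁ / ε') ^ 2 * (N / Real.log N)

/-- **FA** (theorem `FA : St_FA`).  The moduli of the weighted sieve are factorable.

Proof.  Everything on the logarithmic scale: for squarefree `d`, `sz (tt N) d = log d/log N` and
`d = N^(sz d)`.  `δ = 1/500`, `θ' = 111/200`.  The prime factors of the modulus have `tt ≥ ε₁`, so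
they exceed `N^(ε₁/2)` (`ε₁ > 0`, `N ≥ 2`): `Rough`.
(1) `T = sz e ≤ θ'` (`WFac` with `a = θ'`, `b = 0`).  If `T > 51/100`: `WFac` with
`a = 4 - 7T - δ ∈ [0, θ']`, `b = θ' - a`: `e = u v`, `s = u`: `sz u + 7T ≤ 4 - δ`, and
`sz u = T - sz v ≥ T - b = 4 - 6T - θ' - δ ≥ 2T - 1 + δ`, because `5 - 8T - θ' ≥ 5 - 9θ' = 1/200 ≥ 2δ`.
(2) `d = q e`, `u = tt q`, `T = sz d = u + sz e ≤ λ ≤ θ'` (`λ` the level, `WFac` of `e` at level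
`λ - u`).  If `T > 51/100`: case A, `u ≤ λ - 4 + 7T + δ`: `WFac` of `e` with `a = 4 - 7T - δ ≥ 0`,
`b = λ - u - a ≥ 0`: `e = x v`, `s = x`: `sz x + 7T ≤ 4 - δ`, `sz x ≥ sz e - b = T - u - b =
T - λ + 4 - 7T - δ = 4 - 6T - λ - δ ≥ 2T - 1 + δ` (`5 - 8T - λ ≥ 5 - 9θ' ≥ 2δ`).
Case B, `u > λ - 4 + 7T + δ ≥ 8T - 4 + δ`: `s = e`, `sz e = T - u`: `T - u + 7T ≤ 4 - δ`, and
`T - u ≥ 2T - 1 + δ` iff `u ≤ 1 - T - δ`, which follows from `u ≤ 1 - λ - δ` (hypothesis). -/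
def St_FA : Prop := ∀ (N : ℕ) (ε₁ : ℝ), 2 ≤ N → 0 < ε₁ →
    (∀ e : ℕ, 1 < e → Squarefree e → (∀ p ∈ e.primeFactors, ε₁ ≤ tt N p) →
      WFac (tt N) (111 / 200) e → e ∈ facR N (111 / 200) (ε₁ / 2) (1 / 500)) ∧
    (∀ (q e : ℕ) (lam : ℝ), q.Prime → ¬ q ∣ e → e ≠ 0 → Squarefree e →
      (∀ p ∈ e.primeFactors, ε₁ ≤ tt N p) → ε₁ ≤ tt N q → tt N q ≤ lam → lam ≤ 111 / 200 →
      tt N q ≤ 1 - lam - 1 / 500 →
      WFac (tt N) (lam - tt N q) e → q * e ∈ facR N (111 / 200) (ε₁ / 2) (1 / 500))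

/-- **NU** (theorem `NU : St_NU`).  A numerical inequality: the left side is `1.88752…`, the right
side is `1.90905…`.

Proof.  `(1 - x/v)/(x (L - x)) = (1/L)/x + (1/L - 1/v)/(L - x)`, so the first integral is
`(1/L) log(b/a) - (1/v - 1/L) log((L-a)/(L-b))` with `L = 111/200`, `v = 119/250`, `a = 1/7`,
`b = 11/25`, and similarly the second with `L = 261/500`, `a = 11/25`, `b = v`.  Then bound the four
logarithms on the left (two from above, two from below) and `log (577/200)` from below by rationals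
to about `10^(-3)` (for instance by `log x = log (x/2^k) + k log 2`, `Real.log_two_gt_d9`,
`Real.log_two_lt_d9`, and the power series `Real.log_div_le_sum_range_add` or
`(2/3)`-type estimates: `Real.le_log_of_pow_le`..., or by `x^n ≤ y^m` type comparisons). -/
def St_NU : Prop := 19 / 17 * ((∫ x in (1 / 7 : ℝ)..(11 / 25),
      (1 - x / (119 / 250)) / (x * (111 / 200 - x))) +
    ∫ x in (11 / 25 : ℝ)..(119 / 250), (1 - x / (119 / 250)) / (x * (261 / 500 - x))) <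
    Real.log (577 / 200) / (111 / 200)

end Pool.Agent.W23.DC
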