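import Pool.Agent.H38.LR.S8.W23.DC.Defs

/-!
DC project (helper23): the sum over the middle primes.
-/

namespace Pool.Agent.W23.DC

open Finset
open Pool.Agent.H442R2
open Pool.Agent.H442R2.KF

/-- the level for the prime factor of size `u` -/
noncomputable def Lv (u : ℝ) : ℝ := if u < 11 / 25 then 111 / 200 else 261 / 500

theorem pr_sub (N : ℕ) (u v a b : ℝ) (h1 : u ≤ a) (h2 : b ≤ v) :
    (pr N u v).filter (fun p => a ≤ tt N p ∧ tt N p < b) = pr N a b := by
  classical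
  ext p
  simp only [pr, mem_filter]
  constructor
  · rintro ⟨⟨h3, h4, h5, h6⟩, h7, h8⟩
    exact ⟨h3, h4, h7, h8⟩
  · rintro ⟨h3, h4, h5, h6⟩
    exact ⟨⟨h3, h4, h1.trans h5, lt_of_lt_of_le h6 h2⟩, h5, h6⟩

theorem g_nonneg {N : ℕ} {u v : ℝ} : ∀ p ∈ pr N u v, 0 ≤ 1 / ((p : ℝ) - 1) := by
  classical
  intro p hp
  simp only [pr, mem_filter] at hp
  have : (2 : ℝ) ≤ p := by exact_mod_cast hp.2.1.two_le
  have : (0 : ℝ) ≤ (p : ℝ) - 1 := by linarith
  positivity

theorem mer_of (hMP : St_MP) (ε₁ w η : ℝ) (hε : 0 < ε₁) (hw : w ≤ 1) (hη : 0 < η) :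
    ∃ N₀ : ℕ, ∀ N : ℕ, N₀ ≤ N → Mer (pr N ε₁ w) (tt N) (fun p => 1 / ((p : ℝ) - 1)) ε₁ w η := by
  obtain ⟨N₀, H⟩ := hMP ε₁ η hε hη
  refine ⟨N₀, fun N hN a b ha hab hb => ?_⟩
  have := H N hN a b ha hab (hb.trans hw)
  convert this using 4
  exact pr_sub N ε₁ w a b ha hb

/-- one range of the middle primes -/
theorem part (hMI : St_MI) (hMP : St_MP) (L α β : ℝ) (hα : 1 / 7 ≤ α) (hαβ : α ≤ β)
    (hβ : β ≤ 119 / 250) (hL : β < L) (η₂ : ℝ) (hη : 0 < η₂) :
    ∃ N₀ : ℕ, ∀ N : ℕ, N₀ ≤ N →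
      ∑ q ∈ pr N α β, 1 / ((q : ℝ) - 1) * (19 / 17 * (1 - tt N q / (119 / 250)) / (L - tt N q)) ≤
      19 / 17 * (∫ x in α..β, (1 - x / (119 / 250)) / (x * (L - x))) + η₂ := by
  set h : ℝ → ℝ := fun x => 19 / 17 * (1 - x / (119 / 250)) / (L - x) with hh
  have hc : ContinuousOn h (Set.Icc α β) := by
    apply ContinuousOn.div
    · fun_prop
    · fun_prop
    · intro x hx
      have := hx.2
      linarith
  obtain ⟨H, hH⟩ := isCompact_Icc.exists_bound_of_continuousOn hc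
  have hu := isCompact_Icc.uniformContinuousOn_of_continuous hc
  set κ : ℝ := η₂ / (2 * Real.log (1 / (1 / 7)) + 2) with hκ
  have hlog : 0 < Real.log (1 / (1 / 7)) := Real.log_pos (by norm_num)
  have hκ0 : 0 < κ := by positivity
  rw [Metric.uniformContinuousOn_iff] at hu
  obtain ⟨ρ, hρ, hu⟩ := hu κ hκ0
  obtain ⟨η, hη0, HH⟩ := hMI (1 / 7) (ρ / 2) κ (max H 1) (by norm_num) (by norm_num) (by positivity)
    hκ0 (by positivity)
  obtain ⟨N₀, hN₀⟩ := mer_of hMP (1 / 7) (119 / 250) η (by norm_num) (by norm_num) hη0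
  refine ⟨N₀, fun N hN => ?_⟩
  have key := HH (pr N (1 / 7) (119 / 250)) (tt N) (fun p => 1 / ((p : ℝ) - 1)) (119 / 250)
    (by norm_num) g_nonneg (hN₀ N hN) α β h hα hαβ hβ hc
    (fun x hx => (hH x hx).trans (le_max_left _ _))
    (fun x hx y hy hxy => by
      have h1 := hu x hx y hy (by
        rw [Real.dist_eq]
        linarith)
      rw [Real.dist_eq] at h1
      exact h1.le)
  rw [pr_sub N (1 / 7) (119 / 250) α β hα hβ] at key
  have e1 : κ * (2 * Real.log (1 / (1 / 7)) + 2) = η₂ := by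
    rw [hκ]
    field_simp
  rw [e1] at key
  have e2 : ∫ x in α..β, h x / x = 19 / 17 * ∫ x in α..β, (1 - x / (119 / 250)) / (x * (L - x)) := by
    rw [← intervalIntegral.integral_const_mul]
    apply intervalIntegral.integral_congr
    intro x hx
    rw [Set.uIcc_of_le hαβ] at hx
    have h1 : x ≠ 0 := by
      have := hx.1
      intro h
      rw [h] at this
      linarith
    have h2 : L - x ≠ 0 := by
      have := hx.2
      intro h
      linarith
    simp only [hh]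
    field_simp
  rw [e2] at key
  have := (abs_le.1 key).2
  simp only [hh] at this
  linarith

/-- the sum over the middle primes -/
theorem QS (hMI : St_MI) (hMP : St_MP) (η₂ : ℝ) (hη : 0 < η₂) :
    ∃ N₀ : ℕ, ∀ N : ℕ, N₀ ≤ N →
      ∑ q ∈ pr N (1 / 7) (119 / 250), 1 / ((q : ℝ) - 1) *
        (19 / 17 * (1 - tt N q / (119 / 250)) / (Lv (tt N q) - tt N q)) ≤
      19 / 17 * ((∫ x in (1 / 7 : ℝ)..(11 / 25), (1 - x / (119 / 250)) / (x * (111 / 200 - x))) +
        ∫ x in (11 / 25 : ℝ)..(119 / 250), (1 - x / (119 / 250)) / (x * (261 / 500 - x))) + η₂ := by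
  classical
  obtain ⟨N₁, h1⟩ := part hMI hMP (111 / 200) (1 / 7) (11 / 25) (by norm_num) (by norm_num)
    (by norm_num) (by norm_num) (η₂ / 2) (by positivity)
  obtain ⟨N₂, h2⟩ := part hMI hMP (261 / 500) (11 / 25) (119 / 250) (by norm_num) (by norm_num)
    (by norm_num) (by norm_num) (η₂ / 2) (by positivity)
  refine ⟨max N₁ N₂, fun N hN => ?_⟩
  have h3 := h1 N ((le_max_left _ _).trans hN)
  have h4 := h2 N ((le_max_right _ _).trans hN)
  rw [← Finset.sum_filter_add_sum_filter_not (pr N (1 / 7) (119 / 250))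
    (fun q => tt N q < 11 / 25)]
  have e1 : (pr N (1 / 7) (119 / 250)).filter (fun q => tt N q < 11 / 25) =
      pr N (1 / 7) (11 / 25) := by
    rw [← pr_sub N (1 / 7) (119 / 250) (1 / 7) (11 / 25) le_rfl (by norm_num)]
    ext p
    simp only [mem_filter, pr]
    tauto
  have e2 : (pr N (1 / 7) (119 / 250)).filter (fun q => ¬ tt N q < 11 / 25) =
      pr N (11 / 25) (119 / 250) := by
    rw [← pr_sub N (1 / 7) (119 / 250) (11 / 25) (119 / 250) (by norm_num) le_rfl]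
    ext p
    simp only [mem_filter, pr, not_lt]
    tauto
  rw [e1, e2]
  have e3 : ∑ q ∈ pr N (1 / 7) (11 / 25), 1 / ((q : ℝ) - 1) *
        (19 / 17 * (1 - tt N q / (119 / 250)) / (Lv (tt N q) - tt N q)) =
      ∑ q ∈ pr N (1 / 7) (11 / 25), 1 / ((q : ℝ) - 1) *
        (19 / 17 * (1 - tt N q / (119 / 250)) / (111 / 200 - tt N q)) := by
    apply Finset.sum_congr rfl
    intro q hq
    have : tt N q < 11 / 25 := by
      simp only [pr, mem_filter] at hq
      exact hq.2.2.2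
    unfold Lv
    rw [if_pos this]
  have e4 : ∑ q ∈ pr N (11 / 25) (119 / 250), 1 / ((q : ℝ) - 1) *
        (19 / 17 * (1 - tt N q / (119 / 250)) / (Lv (tt N q) - tt N q)) =
      ∑ q ∈ pr N (11 / 25) (119 / 250), 1 / ((q : ℝ) - 1) *
        (19 / 17 * (1 - tt N q / (119 / 250)) / (261 / 500 - tt N q)) := by
    apply Finset.sum_congr rfl
    intro q hq
    have : ¬ tt N q < 11 / 25 := by
      simp only [pr, mem_filter] at hq
      exact not_lt.2 hq.2.2.1
    unfold Lv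
    rw [if_neg this]
  rw [e3, e4]
  linarith

end Pool.Agent.W23.DC
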